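import Pool.Agent.Helper43.QA.Sim

/-!
# The determinant of `LR` for a quaternion algebra
-/

set_option autoImplicit false

namespace Pool.Agent.Helper43.QA

open Pool.Agent.Helper15.BR

/-- addition of the indices -/
def ad : Fin 4 → Fin 4 → Fin 4 :=
  ![![0, 1, 2, 3], ![1, 0, 3, 2], ![2, 3, 0, 1], ![3, 2, 1, 0]]

/-- the coefficient of the product of two basis elements -/
def kp {R : Type*} [CommRing R] (a b : R) : Fin 4 → Fin 4 → R :=
  ![![1, 1, 1, 1], ![1, a, 1, a], ![1, -1, b, -b], ![1, -a, b, -(a * b)]]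

/-- `kp * kq = a * b` -/
def kq {R : Type*} [CommRing R] (a b : R) : Fin 4 → Fin 4 → R :=
  ![![a * b, a * b, a * b, a * b], ![a * b, b, a * b, b], ![a * b, -(a * b), a, -a],
    ![a * b, -b, a, -1]]

/-- the signs of the commutators -/
def sg (R : Type*) [CommRing R] : Fin 4 → Fin 4 → R :=
  ![![1, 1, 1, 1], ![1, 1, -1, -1], ![1, -1, 1, -1], ![1, -1, -1, 1]]

theorem ad_assoc_inv : ∀ x y z : Fin 4, ad y (ad (ad x y) z) = ad x z := by decide

theorem ad_right (x z t : Fin 4) (h : ad x z = t) : z = ad x t := by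
  subst h
  revert x z
  decide

theorem quatSC_eq {R : Type*} [CommRing R] (a b : R) (x y z : Fin 4) :
    quatSC a b x y z = if z = ad x y then kp a b x y else 0 := by
  fin_cases x <;> fin_cases y <;> fin_cases z <;> simp [quatSC, ad, kp]

theorem LR_quat {R : Type*} [CommRing R] (a b : R) (x y : Fin 4 × Fin 4) :
    LR (quatSC a b) x y =
      if y.2 = ad (ad x.1 y.1) x.2 then kp a b x.1 y.1 * kp a b (ad x.1 y.1) x.2 else 0 := by
  unfold LR
  rw [Finset.sum_eq_single (ad x.1 y.1)]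
  · rw [quatSC_eq, quatSC_eq, if_pos rfl]
    split_ifs
    · rfl
    · rw [mul_zero]
  · intro m _ hm
    rw [quatSC_eq, if_neg hm, zero_mul]
  · intro h
    exact absurd (Finset.mem_univ _) h

/-- the inverse matrix, up to a factor -/
def NM {R : Type*} [CommRing R] (a b : R) : Matrix (Fin 4 × Fin 4) (Fin 4 × Fin 4) R :=
  fun y z => if ad y.1 y.2 = ad z.1 z.2 then
    sg R z.1 y.1 * kq a b z.1 z.2 * kq a b y.1 (ad z.1 z.2) else 0

theorem core {R : Type*} [CommRing R] (a b : R) (x z t : Fin 4) :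
    ∑ y, kp a b x y * kp a b (ad x y) (ad x t) *
      (sg R z y * kq a b z (ad z t) * kq a b y t) = if x = z then 4 * (a * b) ^ 2 else 0 := by
  fin_cases x <;> fin_cases z <;> fin_cases t <;>
    simp [Fin.sum_univ_four, kp, kq, sg, ad]
  all_goals ring1

theorem LR_mul_NM {R : Type*} [CommRing R] (a b : R) :
    LR (quatSC a b) * NM a b = (4 * (a * b) ^ 2) • (1 : Matrix (Fin 4 × Fin 4) (Fin 4 × Fin 4) R) := by
  ext ⟨x1, x2⟩ ⟨z1, z2⟩
  rw [Matrix.mul_apply, Matrix.smul_apply, Matrix.one_apply, Fintype.sum_prod_type]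
  have h1 : ∀ y1 : Fin 4, ∑ y2, LR (quatSC a b) (x1, x2) (y1, y2) * NM a b (y1, y2) (z1, z2) =
      if ad x1 x2 = ad z1 z2 then kp a b x1 y1 * kp a b (ad x1 y1) x2 *
        (sg R z1 y1 * kq a b z1 z2 * kq a b y1 (ad z1 z2)) else 0 := by
    intro y1
    rw [Finset.sum_eq_single (ad (ad x1 y1) x2)]
    · rw [LR_quat, if_pos rfl]
      unfold NM
      rw [ad_assoc_inv]
      split_ifs
      · rfl
      · rw [mul_zero]
    · intro m _ hm
      rw [LR_quat, if_neg hm, zero_mul]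
    · intro h
      exact absurd (Finset.mem_univ _) h
  rw [Finset.sum_congr rfl fun y1 _ => h1 y1]
  by_cases h : ad x1 x2 = ad z1 z2
  · obtain ⟨t, ht⟩ : ∃ t, t = ad z1 z2 := ⟨_, rfl⟩
    have hx : x2 = ad x1 t := ad_right _ _ _ (h.trans ht.symm)
    have hz : z2 = ad z1 t := ad_right _ _ _ ht.symm
    rw [Finset.sum_congr rfl fun y1 _ => if_pos h, ← ht, hx, hz, core]
    by_cases hxz : x1 = z1
    · subst hxz
      rw [if_pos rfl, if_pos rfl, smul_eq_mul, mul_one]
    · rw [if_neg hxz, if_neg (fun h => hxz (Prod.ext_iff.1 h).1), smul_zero]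
  · rw [Finset.sum_congr rfl fun y1 _ => if_neg h, Finset.sum_const_zero, if_neg, smul_zero]
    intro h'
    obtain ⟨h1, h2⟩ := Prod.ext_iff.1 h'
    exact h (by rw [show x1 = z1 from h1, show x2 = z2 from h2])

theorem det_dvd {R : Type*} [CommRing R] (a b : R) :
    (LR (quatSC a b)).det ∣ (4 * (a * b) ^ 2) ^ 16 := by
  refine ⟨(NM a b).det, ?_⟩
  rw [← Matrix.det_mul, LR_mul_NM, Matrix.det_smul, Matrix.det_one, mul_one]
  rfl

theorem not_dvd_det {R : Type*} [CommRing R] {P : R} (hP : Prime P) (h2 : ¬ P ∣ 2) {a b : R}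
    (ha : ¬ P ∣ a) (hb : ¬ P ∣ b) : ¬ P ∣ (LR (quatSC a b)).det := by
  intro h
  have h1 := hP.dvd_of_dvd_pow (h.trans (det_dvd a b))
  rcases hP.dvd_or_dvd h1 with h3 | h3
  · have h4 : (4 : R) = 2 * 2 := by norm_num
    rw [h4] at h3
    rcases hP.dvd_or_dvd h3 with h5 | h5 <;> exact h2 h5
  · rcases hP.dvd_or_dvd (hP.dvd_of_dvd_pow h3) with h5 | h5
    · exact ha h5
    · exact hb h5

theorem quat_det_ne {R : Type*} [CommRing R] [IsDomain R] (h2 : (2 : R) ≠ 0) {a b : R}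
    (ha : a ≠ 0) (hb : b ≠ 0) : (LR (quatSC a b)).det ≠ 0 := by
  intro h
  have h1 := det_dvd a b
  rw [h, zero_dvd_iff] at h1
  have h4 : (4 : R) = 2 * 2 := by norm_num
  rw [h4] at h1
  exact pow_ne_zero _ (mul_ne_zero (mul_ne_zero h2 h2) (pow_ne_zero _ (mul_ne_zero ha hb))) h1

end Pool.Agent.Helper43.QA
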