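import Pool.Agent.Helper15.BR.Defs
import Pool.Agent.Helper65.CB.TEDefs

/-!
# Quaternion algebras by structure constants

`quatSC a b` are the structure constants of the quaternion algebra `i ^ 2 = a`, `j ^ 2 = b` in the
basis `1, i, j, i j`.  If the symbol `(a, b)` is unramified at the prime element `P` (in the sense of
`LCU`), then the algebra is unramified at `P` (in the sense of `Unr`).
-/

set_option autoImplicit false

namespace Pool.Agent.Helper43.QA

open Pool.Agent.Helper15.BR Pool.Agent.Helper65.CB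

/-- the structure constants of the quaternion algebra -/
def quatSC {R : Type*} [CommRing R] (a b : R) : SC R 4 :=
  ![![![1, 0, 0, 0], ![0, 1, 0, 0], ![0, 0, 1, 0], ![0, 0, 0, 1]],
    ![![0, 1, 0, 0], ![a, 0, 0, 0], ![0, 0, 0, 1], ![0, 0, a, 0]],
    ![![0, 0, 1, 0], ![0, 0, 0, -1], ![b, 0, 0, 0], ![0, -b, 0, 0]],
    ![![0, 0, 0, 1], ![0, 0, -a, 0], ![0, b, 0, 0], ![-(a * b), 0, 0, 0]]]

theorem mapSC_quatSC {R S : Type*} [CommRing R] [CommRing S] (f : R →+* S) (a b : R) :
    mapSC f (quatSC a b) = quatSC (f a) (f b) := by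
  funext x y z
  fin_cases x <;> fin_cases y <;> fin_cases z <;> simp [mapSC, quatSC]

/-- the basis `(g / s) e` has the structure constants `c'` -/
def Eqv {R : Type*} [CommRing R] {D : ℕ} (g : Matrix (Fin D) (Fin D) R) (s : R) (c c' : SC R D) :
    Prop :=
  ∀ i j d, ∑ a, ∑ b, g i a * g j b * c a b d = s * ∑ k, c' i j k * g k d

/-- isomorphic algebras over the fraction field -/
def Sim {R : Type*} [CommRing R] {D : ℕ} (c c' : SC R D) : Prop :=
  ∃ (g : Matrix (Fin D) (Fin D) R) (s : R), g.det ≠ 0 ∧ s ≠ 0 ∧ Eqv g s c c'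

theorem Sim.trans {R : Type*} [CommRing R] [IsDomain R] {D : ℕ} {c c' c'' : SC R D}
    (h1 : Sim c c') (h2 : Sim c' c'') : Sim c c'' := by
  obtain ⟨g, s, hg, hs, hE⟩ := h1
  obtain ⟨g', s', hg', hs', hE'⟩ := h2
  refine ⟨g' * g, s * s', ?_, mul_ne_zero hs hs', ?_⟩
  · rw [Matrix.det_mul]
    exact mul_ne_zero hg' hg
  · intro i j d
    have e1 : ∑ a, ∑ b, (g' * g) i a * (g' * g) j b * c a b d =
        ∑ p, ∑ q, g' i p * g' j q * ∑ a, ∑ b, g p a * g q b * c a b d := by
      simp only [Matrix.mul_apply, Finset.sum_mul, Finset.mul_sum]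
      calc ∑ a, ∑ b, ∑ q, ∑ p, g' i p * g p a * (g' j q * g q b) * c a b d
          = ∑ a, ∑ p, ∑ q, ∑ b, g' i p * g p a * (g' j q * g q b) * c a b d := by
            refine Finset.sum_congr rfl fun a _ => ?_
            rw [Finset.sum_comm]
            rw [Finset.sum_congr rfl fun q _ => Finset.sum_comm]
            rw [Finset.sum_comm]
        _ = ∑ p, ∑ q, ∑ a, ∑ b, g' i p * g p a * (g' j q * g q b) * c a b d := by
            rw [Finset.sum_comm]
            exact Finset.sum_congr rfl fun p _ => Finset.sum_comm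
        _ = _ := by
            refine Finset.sum_congr rfl fun p _ => Finset.sum_congr rfl fun q _ =>
              Finset.sum_congr rfl fun a _ => Finset.sum_congr rfl fun b _ => ?_
            ring
    have e2 : ∑ p, ∑ q, g' i p * g' j q * ∑ a, ∑ b, g p a * g q b * c a b d =
        s * ∑ k, (∑ p, ∑ q, g' i p * g' j q * c' p q k) * g k d := by
      calc ∑ p, ∑ q, g' i p * g' j q * ∑ a, ∑ b, g p a * g q b * c a b d
          = ∑ p, ∑ q, ∑ k, s * (g' i p * g' j q * c' p q k * g k d) := by
            refine Finset.sum_congr rfl fun p _ => Finset.sum_congr rfl fun q _ => ?_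
            rw [hE, Finset.mul_sum, Finset.mul_sum]
            exact Finset.sum_congr rfl fun k _ => by ring
        _ = ∑ k, ∑ p, ∑ q, s * (g' i p * g' j q * c' p q k * g k d) := by
            rw [Finset.sum_congr rfl fun p _ => Finset.sum_comm]
            rw [Finset.sum_comm]
        _ = _ := by
            rw [Finset.mul_sum]
            refine Finset.sum_congr rfl fun k _ => ?_
            rw [Finset.sum_mul, Finset.mul_sum]
            refine Finset.sum_congr rfl fun p _ => ?_
            rw [Finset.sum_mul, Finset.mul_sum]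
    have e3 : ∑ k, (∑ p, ∑ q, g' i p * g' j q * c' p q k) * g k d =
        s' * ∑ m, c'' i j m * (g' * g) m d := by
      calc ∑ k, (∑ p, ∑ q, g' i p * g' j q * c' p q k) * g k d
          = ∑ k, ∑ m, s' * (c'' i j m * (g' m k * g k d)) := by
            refine Finset.sum_congr rfl fun k _ => ?_
            rw [hE', mul_assoc, Finset.sum_mul, Finset.mul_sum]
            exact Finset.sum_congr rfl fun m _ => by ring
        _ = ∑ m, ∑ k, s' * (c'' i j m * (g' m k * g k d)) := Finset.sum_comm
        _ = _ := by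
            rw [Finset.mul_sum]
            refine Finset.sum_congr rfl fun m _ => ?_
            rw [Matrix.mul_apply, Finset.mul_sum, Finset.mul_sum]
    rw [e1, e2, e3]
    ring

/-- change of the basis by an element `p + q j`: `i' = i (p + q j) / m` -/
theorem sim_norm {R : Type*} [CommRing R] [IsDomain R] {a b a' p q m : R} (hm : m ≠ 0)
    (hn : p ^ 2 - b * q ^ 2 ≠ 0) (h : m ^ 2 * a' = a * (p ^ 2 - b * q ^ 2)) :
    Sim (quatSC a b) (quatSC a' b) := by
  refine ⟨!![m, 0, 0, 0; 0, p, 0, q; 0, 0, m, 0; 0, q * b, 0, p], m, ?_, hm, ?_⟩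
  · have hd : (!![m, 0, 0, 0; 0, p, 0, q; 0, 0, m, 0; 0, q * b, 0, p] :
        Matrix (Fin 4) (Fin 4) R).det = m * m * (p ^ 2 - b * q ^ 2) := by
      simp [Matrix.det_succ_row_zero, Fin.sum_univ_succ, Fin.succAbove]
      ring
    rw [hd]
    exact mul_ne_zero (mul_ne_zero hm hm) hn
  · intro i j d
    fin_cases i <;> fin_cases j <;> fin_cases d <;>
      simp [Fin.sum_univ_four, quatSC] <;>
      first
      | ring1
      | linear_combination h
      | linear_combination -h
      | linear_combination b * h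
      | linear_combination -b * h
      | (left; ring1)

/-- exchange of `i` and `j` -/
theorem sim_swap {R : Type*} [CommRing R] [IsDomain R] (a b : R) :
    Sim (quatSC a b) (quatSC b a) := by
  refine ⟨!![1, 0, 0, 0; 0, 0, 1, 0; 0, 1, 0, 0; 0, 0, 0, -1], 1, ?_, one_ne_zero, ?_⟩
  · have hd : (!![1, 0, 0, 0; 0, 0, 1, 0; 0, 1, 0, 0; 0, 0, 0, -1] :
        Matrix (Fin 4) (Fin 4) R).det = 1 := by
      simp [Matrix.det_succ_row_zero, Fin.sum_univ_succ, Fin.succAbove]
    rw [hd]
    exact one_ne_zero
  · intro i j d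
    fin_cases i <;> fin_cases j <;> fin_cases d <;>
      simp [Fin.sum_univ_four, quatSC]
    all_goals ring1

end Pool.Agent.Helper43.QA
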