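import Pool.Agent.Helper43.QA.Det

/-!
# A quaternion algebra is unramified at `P` if its symbol is
-/

set_option autoImplicit false

namespace Pool.Agent.Helper43.QA

open Pool.Agent.Helper15.BR Pool.Agent.Helper65.CB

section

variable {R : Type*} [CommRing R] [IsDomain R]

omit [IsDomain R] in
theorem unr_of_sim {D : ℕ} {P : R} (hP : Prime P) {c c' : SC R D} (h : Sim c c')
    (hd : ¬ P ∣ (LR c').det) : Unr P c := by
  obtain ⟨g, s, hg, hs, hE⟩ := h
  refine ⟨g, s, 1, c', hg, hs, fun h1 => hP.not_isUnit (isUnit_of_dvd_one h1), hd,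
    fun i j d => ?_⟩
  rw [one_mul]
  exact hE i j d

theorem sim_sq {m : R} (hm : m ≠ 0) (a b : R) : Sim (quatSC (m ^ 2 * a) b) (quatSC a b) :=
  sim_norm (p := 1) (q := 0) hm (by simp) (by ring)

/-- both entries up to squares -/
theorem sim_sq_sq {m n : R} (hm : m ≠ 0) (hn : n ≠ 0) (a b : R) :
    Sim (quatSC (m ^ 2 * a) (n ^ 2 * b)) (quatSC a b) :=
  (sim_sq hm a _).trans ((sim_swap a _).trans ((sim_sq hn b a).trans (sim_swap b a)))

/-- `a` has odd order at `P` and `b` is a square modulo `P` -/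
theorem sim_odd {P a b g h : R} (hP : Prime P) (h2 : ¬ P ∣ 2) (ha : ¬ P ∣ a) (hb : ¬ P ∣ b)
    (hg : ¬ P ∣ g) (hh : P ∣ g ^ 2 * b - h ^ 2) :
    ∃ a', ¬ P ∣ a' ∧ Sim (quatSC (P * a) b) (quatSC a' b) := by
  have hh' : ¬ P ∣ h := by
    intro h1
    have h3 : P ∣ g ^ 2 * b := by
      have h4 := dvd_add hh (h1.trans (dvd_pow_self h two_ne_zero))
      rwa [sub_add_cancel] at h4
    rcases hP.dvd_or_dvd h3 with h5 | h5
    · exact hg (hP.dvd_of_dvd_pow h5)
    · exact hb h5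
  obtain ⟨k', hk'⟩ := hh
  obtain ⟨k, hk⟩ : ∃ k, h ^ 2 - b * g ^ 2 = P * k := ⟨-k', by linear_combination -hk'⟩
  have key : ∀ p k : R, p ^ 2 - b * g ^ 2 = P * k → ¬ P ∣ k →
      ∃ a', ¬ P ∣ a' ∧ Sim (quatSC (P * a) b) (quatSC a' b) := by
    intro p k h1 h3
    refine ⟨a * k, fun h4 => ?_, sim_norm (p := p) (q := g) (m := P) hP.ne_zero ?_ ?_⟩
    · rcases hP.dvd_or_dvd h4 with h5 | h5
      · exact ha h5
      · exact h3 h5
    · rw [h1]
      refine mul_ne_zero hP.ne_zero fun h4 => h3 ?_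
      rw [h4]
      exact dvd_zero P
    · rw [h1]
      ring
  by_cases hPk : P ∣ k
  · refine key (h + P) (k + 2 * h + P) (by linear_combination hk) fun h1 => ?_
    have h3 : P ∣ 2 * h := by
      have h4 := dvd_sub (dvd_sub h1 (dvd_refl P)) hPk
      have e : k + 2 * h + P - P - k = 2 * h := by ring
      rwa [e] at h4
    rcases hP.dvd_or_dvd h3 with h5 | h5
    · exact h2 h5
    · exact hh' h5
  · exact key h k hk hPk

theorem quat_odd_even {P a b g h : R} (e f : ℕ) (hP : Prime P) (h2 : ¬ P ∣ 2) (ha : ¬ P ∣ a)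
    (hb : ¬ P ∣ b) (hg : ¬ P ∣ g)
    (hh : P ∣ g ^ 2 * (a ^ (2 * f) * b ^ (2 * e + 1)) - h ^ 2) :
    ∃ a', ¬ P ∣ a' ∧
      Sim (quatSC (P ^ (2 * e + 1) * a) (P ^ (2 * f) * b)) (quatSC a' b) := by
  obtain ⟨a', ha', hs⟩ := sim_odd (g := g * (a ^ f * b ^ e)) (h := h) hP h2 ha hb (by
    intro h1
    rcases hP.dvd_or_dvd h1 with h3 | h3
    · exact hg h3
    · rcases hP.dvd_or_dvd h3 with h4 | h4
      · exact ha (hP.dvd_of_dvd_pow h4)
      · exact hb (hP.dvd_of_dvd_pow h4)) (by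
    have e1 : (g * (a ^ f * b ^ e)) ^ 2 * b - h ^ 2 =
        g ^ 2 * (a ^ (2 * f) * b ^ (2 * e + 1)) - h ^ 2 := by
      rw [pow_succ b (2 * e), mul_comm 2 f, mul_comm 2 e, pow_mul, pow_mul]
      ring
    rw [e1]
    exact hh)
  refine ⟨a', ha', ?_⟩
  have e1 : P ^ (2 * e + 1) * a = (P ^ e) ^ 2 * (P * a) := by
    rw [pow_succ, mul_comm 2 e, pow_mul]
    ring
  have e2 : P ^ (2 * f) * b = (P ^ f) ^ 2 * b := by
    rw [mul_comm 2 f, pow_mul]
  rw [e1, e2]
  exact (sim_sq_sq (pow_ne_zero _ hP.ne_zero) (pow_ne_zero _ hP.ne_zero) _ _).trans hs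

theorem quat_sim {P a b : R} (hP : Prime P) (h2 : ¬ P ∣ 2) (hL : LCU P a b) :
    ∃ a' b', ¬ P ∣ a' ∧ ¬ P ∣ b' ∧ Sim (quatSC a b) (quatSC a' b') := by
  obtain ⟨e, f, a1, b1, g, h, rfl, rfl, ha, hb, hg, hh⟩ := hL
  obtain ⟨e', he⟩ := Nat.even_or_odd' e
  obtain ⟨f', hf⟩ := Nat.even_or_odd' f
  have hPe : ∀ n : ℕ, P ^ n ≠ 0 := fun n => pow_ne_zero n hP.ne_zero
  rcases he with rfl | rfl
  · rcases hf with rfl | rfl
    · -- even, even
      refine ⟨a1, b1, ha, hb, ?_⟩
      rw [mul_comm 2 e', mul_comm 2 f', pow_mul, pow_mul]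
      exact sim_sq_sq (hPe _) (hPe _) _ _
    · -- even, odd
      obtain ⟨b', hb', hs⟩ := quat_odd_even (a := b1) (b := a1) (g := g) (h := h) f' e' hP h2 hb ha
        hg (by
          have e1 : ((-1 : R)) ^ (2 * e' * (2 * f' + 1)) = 1 := by
            rw [mul_assoc, pow_mul]
            simp
          rw [e1, one_mul] at hh
          rw [mul_comm (b1 ^ (2 * e'))]
          exact hh)
      exact ⟨b', a1, hb', ha, (sim_swap _ _).trans hs⟩
  · rcases hf with rfl | rfl
    · -- odd, even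
      obtain ⟨a', ha', hs⟩ := quat_odd_even (a := a1) (b := b1) (g := g) (h := h) e' f' hP h2 ha hb
        hg (by
          have e1 : ((-1 : R)) ^ ((2 * e' + 1) * (2 * f')) = 1 := by
            rw [mul_comm, mul_assoc, pow_mul]
            simp
          rw [e1, one_mul] at hh
          exact hh)
      exact ⟨a', b1, ha', hb, hs⟩
    · -- odd, odd
      have hab : ¬ P ∣ -(a1 * b1) := by
        rw [dvd_neg]
        intro h1
        rcases hP.dvd_or_dvd h1 with h3 | h3
        · exact ha h3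
        · exact hb h3
      obtain ⟨a', ha', hs⟩ := sim_odd (a := a1) (b := -(a1 * b1)) (g := g * (a1 ^ f' * b1 ^ e'))
        (h := h) hP h2 ha hab (by
          intro h1
          rcases hP.dvd_or_dvd h1 with h3 | h3
          · exact hg h3
          · rcases hP.dvd_or_dvd h3 with h4 | h4
            · exact ha (hP.dvd_of_dvd_pow h4)
            · exact hb (hP.dvd_of_dvd_pow h4)) (by
          have e1 : ((-1 : R)) ^ ((2 * e' + 1) * (2 * f' + 1)) = -1 := by
            have e2 : (2 * e' + 1) * (2 * f' + 1) = 2 * (2 * e' * f' + e' + f') + 1 := by ring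
            rw [e2, pow_succ, pow_mul]
            simp
          rw [e1] at hh
          have e3 : (g * (a1 ^ f' * b1 ^ e')) ^ 2 * -(a1 * b1) - h ^ 2 =
              g ^ 2 * (-1 * (a1 ^ (2 * f' + 1) * b1 ^ (2 * e' + 1))) - h ^ 2 := by
            rw [pow_succ b1 (2 * e'), pow_succ a1 (2 * f'), mul_comm 2 f', mul_comm 2 e', pow_mul,
              pow_mul]
            ring
          rw [e3]
          exact hh)
      refine ⟨a', -(a1 * b1), ha', hab, ?_⟩
      have e1 : P ^ (2 * e' + 1) * a1 = (P ^ e') ^ 2 * (P * a1) := by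
        rw [pow_succ, mul_comm 2 e', pow_mul]
        ring
      have e2 : P ^ (2 * f' + 1) * b1 = (P ^ f') ^ 2 * (P * b1) := by
        rw [pow_succ, mul_comm 2 f', pow_mul]
        ring
      have hPa : P * a1 ≠ 0 := mul_ne_zero hP.ne_zero (fun h0 => ha (by rw [h0]; exact dvd_zero P))
      have s1 : Sim (quatSC (P * b1) (P * a1)) (quatSC (-(a1 * b1)) (P * a1)) :=
        sim_norm (p := 0) (q := 1) (m := P) hP.ne_zero (by
          intro h0
          apply hPa
          linear_combination -h0) (by ring)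
      rw [e1, e2]
      exact (sim_sq_sq (hPe _) (hPe _) _ _).trans ((sim_swap _ _).trans (s1.trans
        ((sim_swap _ _).trans hs)))

theorem quat_unr' {P a b : R} (hP : Prime P) (h2 : ¬ P ∣ 2) (hL : LCU P a b) :
    Unr P (quatSC a b) := by
  obtain ⟨a', b', ha, hb, hs⟩ := quat_sim hP h2 hL
  exact unr_of_sim hP hs (not_dvd_det hP h2 ha hb)

end

/-- **U.** -/
theorem quat_unr {k : Type*} [Field k] [CharZero k] {n : ℕ} (a b P : MvPolynomial (Fin n) k)
    (hP : Irreducible P) (h : LCU P a b) : Unr P (quatSC a b) := by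
  refine quat_unr' hP.prime (fun h2 => ?_) h
  have hu : IsUnit (2 : MvPolynomial (Fin n) k) := by
    have h1 : IsUnit (MvPolynomial.C (2 : k) : MvPolynomial (Fin n) k) :=
      (isUnit_iff_ne_zero.2 two_ne_zero).map MvPolynomial.C
    rwa [map_ofNat] at h1
  exact hP.not_isUnit (isUnit_of_dvd_unit h2 hu)

end Pool.Agent.Helper43.QA
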